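import Pool.Agent.Helper379_HC.Graph

/-!
# Cocycle data on the 21-vertex graph (MP_3ca9d5_al, job M8b)
-/

set_option autoImplicit false
namespace Pool.Agent.JOBNS
open Pool.Agent.W326.DU Pool.Agent.Y66.HC Pool.Agent.Helper379_HC

/-- the thirteen permutations of `Fin 5` which occur, as functions -/
def pfG : Fin 13 → Fin 5 → Fin 5 :=
  ![![0, 1, 2, 3, 4], ![1, 2, 3, 4, 0], ![4, 3, 0, 2, 1], ![2, 0, 4, 1, 3], ![4, 0, 1, 2, 3],
    ![3, 2, 0, 4, 1], ![1, 4, 3, 0, 2], ![1, 3, 0, 4, 2], ![2, 4, 1, 0, 3], ![3, 2, 4, 1, 0],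
    ![2, 4, 3, 1, 0], ![3, 0, 4, 2, 1], ![4, 3, 1, 0, 2]]

/-- the index of the inverse permutation -/
def ivG : Fin 13 → Fin 13 := ![0, 4, 10, 7, 1, 8, 11, 3, 5, 12, 2, 6, 9]

lemma pfG_left : ∀ c x, pfG (ivG c) (pfG c x) = x := by decide +kernel

lemma pfG_right : ∀ c x, pfG c (pfG (ivG c) x) = x := by decide +kernel

/-- the thirteen permutations -/
def sgG (c : Fin 13) : Equiv.Perm (Fin 5) := ⟨pfG c, pfG (ivG c), pfG_left c, pfG_right c⟩

/-- the code table, five bits for each entry -/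
def encG : List ℕ := [0, 3883417903238237922358552690688, 7606097180616242342214307414016,
  316921452557412672729056804864, 15255449491005111756352651264, 0, 0, 0, 0,
  3804189740723973584765008741376, 3882179963198952542083653664768,
  80466102553549717868445171712, 193579246865792496599990272, 7606097029500514749648178511872,
  8802491124069018687766528, 14168252370113542882304, 3541774862152240300032,
  304371277216209707008, 144255925573648512, 371546969258230080, 405836497211562667232]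

/-- the code of the value of the cocycle -/
def cdG (a b : Fin 21) : Fin 13 :=
  Fin.ofNat 13 ((encG.getD a.val 0 / 2 ^ (5 * b.val)) % 32)

/-- the cocycle -/
def gaG (a b : Fin 21) : Equiv.Perm (Fin 5) := sgG (cdG a b)

lemma cdG_self : ∀ u, cdG u u = 0 := by decide +kernel

lemma gaG_self (u : Fin 21) : gaG u u = 1 := by
  unfold gaG
  rw [cdG_self]
  ext x
  revert x
  decide +kernel

lemma cdG_symm : ∀ u v, cdG v u = ivG (cdG u v) := by decide +kernel

lemma gaG_symm (u v : Fin 21) : gaG u v * gaG v u = 1 := by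
  unfold gaG
  rw [cdG_symm u v]
  ext x
  have : pfG (cdG u v) (pfG (ivG (cdG u v)) x) = x := pfG_right _ _
  exact congrArg Fin.val this

lemma gaG_tri0 : ∀ u v, adG u v → ∀ w, adG v w → adG u w → ∀ x,
    pfG (cdG u v) (pfG (cdG v w) x) = pfG (cdG u w) x := by decide +kernel

lemma gaG_tri (u v w : Fin 21) (h1 : adG u v) (h2 : adG v w) (h3 : adG u w) :
    gaG u v * gaG v w = gaG u w := by
  ext x
  exact congrArg Fin.val (gaG_tri0 u v h1 w h2 h3 x)

lemma symmG : ∀ a b, adG a b → adG b a := by decide +kernel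

lemma irrG : ∀ a, ¬ adG a a := by decide +kernel

/-- the type (dimension) of a cell -/
def clG (a : Fin 21) : Fin 3 := if a.val < 5 then 0 else if a.val < 15 then 1 else 2

lemma clG_ne : ∀ a b, adG a b → clG a ≠ clG b := by decide +kernel

lemma fin3_no4 : ∀ a b c d : Fin 3, a ≠ b → a ≠ c → a ≠ d → b ≠ c → b ≠ d → ¬ c ≠ d := by
  decide +kernel

lemma conn0 : ∀ a : Fin 21, a = 0 ∨ adG 0 a ∨ (∃ b, adG 0 b ∧ adG b a) ∨
    ∃ b, adG 0 b ∧ ∃ c, adG b c ∧ adG c a := by decide +kernel

lemma conn1 (a : Fin 21) : Relation.ReflTransGen adG 0 a := by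
  rcases conn0 a with rfl | h | ⟨b, h1, h2⟩ | ⟨b, h1, c, h2, h3⟩
  · exact Relation.ReflTransGen.refl
  · exact Relation.ReflTransGen.single h
  · exact (Relation.ReflTransGen.single h1).tail h2
  · exact ((Relation.ReflTransGen.single h1).tail h2).tail h3

/-- the closed path -/
def paG (i : ℕ) : Fin 21 := (([0, 5, 1, 9, 2, 6, 0] : List (Fin 21)).getD i 0)

/-- TARGET -/
theorem dataG (hac : Acyc adG) : ∃ (γ : Fin 21 → Fin 21 → Equiv.Perm (Fin 5)) (l : ℕ)
    (p : ℕ → Fin 21), GrData adG γ l p := by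
  refine ⟨gaG, 6, paG, symmG, irrG, ?_, hac, ?_, ?_, by decide +kernel, by decide +kernel, ?_⟩
  · intro a b c d h1 h2 h3 h4 h5 h6
    exact fin3_no4 _ _ _ _ (clG_ne _ _ h1) (clG_ne _ _ h2) (clG_ne _ _ h3) (clG_ne _ _ h4)
      (clG_ne _ _ h5) (clG_ne _ _ h6)
  · intro a b
    have hs : Std.Symm adG := ⟨fun x y => symmG x y⟩
    exact ((Relation.ReflTransGen.stdSymm (r := adG)).symm _ _ (conn1 a)).trans (conn1 b)
  · intro u v w h1 h2 h3
    rcases h1 with rfl | h1
    · rw [gaG_self, one_mul]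
    rcases h2 with rfl | h2
    · rw [gaG_self, mul_one]
    rcases h3 with rfl | h3
    · rw [gaG_self, gaG_symm]
    exact gaG_tri u v w h1 h2 h3
  · intro h
    have h2 := congrArg (fun σ : Equiv.Perm (Fin 5) => σ 0) h
    revert h2
    decide +kernel

end Pool.Agent.JOBNS
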